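import Pool.Agent.H29.ENR.Stmts

/-!
# Board `enr`, row AFF (MP_d15c96_al): an affine map as a matrix.
-/

set_option autoImplicit false

namespace Pool.ENR

open Matrix

namespace AFFAux

variable {R : Type} [CommRing R] {k : ℕ}

/-- The matrix of the affine map `v ↦ A₀ v + u`. -/
def mat (A₀ : Matrix (Fin k) (Fin k) R) (u : Fin k → R) :
    Matrix (Fin k ⊕ Unit) (Fin k ⊕ Unit) R :=
  Matrix.fromBlocks A₀ (Matrix.of fun i _ => u i) 0 1

lemma mat_mulVec (A₀ : Matrix (Fin k) (Fin k) R) (u v : Fin k → R) (w : R) :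
    mat A₀ u *ᵥ Sum.elim v (fun _ => w) = Sum.elim (A₀ *ᵥ v + w • u) (fun _ => w) := by
  unfold mat
  rw [Matrix.fromBlocks_mulVec]
  congr 1
  · funext i
    simp [Matrix.mulVec, dotProduct, mul_comm]
  · funext i
    simp

lemma mat_pow_mulVec (A₀ : Matrix (Fin k) (Fin k) R) (u : Fin k → R) (i : ℕ) (v : Fin k → R) :
    (mat A₀ u) ^ i *ᵥ Sum.elim v (fun _ => (1 : R)) =
      Sum.elim ((fun v => A₀ *ᵥ v + u)^[i] v) (fun _ => (1 : R)) := by
  induction i generalizing v with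
  | zero => simp
  | succ i ih =>
    rw [pow_succ, ← Matrix.mulVec_mulVec, mat_mulVec, one_smul, ih, Function.iterate_succ_apply]

end AFFAux

/-- An affine map with a singular linear part. -/
theorem aff_thm (hCHP : CHPStmt) : AFFStmt := by
  intro p b c hp hc A u z hz hAz
  obtain ⟨A₀, hA₀⟩ : ∃ A₀ : Matrix (Fin (p ^ b)) (Fin (p ^ b)) (ZMod (p ^ c)),
      ∀ v, A₀ *ᵥ v = A v := by
    refine ⟨LinearMap.toMatrix' (A.toZModLinearMap (p ^ c)), fun v => ?_⟩
    rw [LinearMap.toMatrix'_mulVec]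
    rfl
  have hdet : ¬ IsUnit (AFFAux.mat A₀ u).det := by
    intro hu
    have h1 : AFFAux.mat A₀ u *ᵥ Sum.elim z (fun _ => (0 : ZMod (p ^ c))) = 0 := by
      rw [AFFAux.mat_mulVec, hA₀, hAz, zero_smul, add_zero]
      funext i
      rcases i with i | i <;> rfl
    have h2 := congrArg (fun w => (AFFAux.mat A₀ u)⁻¹ *ᵥ w) h1
    simp only [Matrix.mulVec_mulVec, Matrix.nonsing_inv_mul _ hu, Matrix.one_mulVec,
      Matrix.mulVec_zero] at h2
    apply hz
    funext i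
    exact congrFun h2 (Sum.inl i)
  obtain ⟨m, t, hm, hM⟩ := hCHP p b c hc (Fin (p ^ b) ⊕ Unit) (by simp) (AFFAux.mat A₀ u) hdet
  refine ⟨m, t, hm, fun v => ?_⟩
  have h3 : (fun v => A v + u) = (fun v => A₀ *ᵥ v + u) := by
    funext v
    rw [hA₀]
  rw [h3]
  have h4 := congrArg (fun N => N *ᵥ Sum.elim v (fun _ => (1 : ZMod (p ^ c)))) hM
  simp only [AFFAux.mat_pow_mulVec] at h4
  funext i
  exact congrFun h4 (Sum.inl i)

end Pool.ENR
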