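import Pool.Agent.H29.ENR.Stmts6
import Pool.Agent.H81.ENG.Comp

/-!
Board enr, row PB4: `g ^ (ed d)` normalises the simple factors.
-/

set_option autoImplicit false

namespace Pool.ENR

open Pool.Agent.H81.ENG Pool.ENG81

theorem pb4_dich {G : Type} [Group G] [Finite G] {M S : Subgroup G} (hMn : M.Normal) (hSM : S ≤ M)
    (hinv : ∀ m ∈ M, ∀ s ∈ S, m * s * m⁻¹ ∈ S) (hs : IsSimpleGroup S) : Dich S := by
  have hne : S ≠ ⊥ := (Subgroup.nontrivial_iff_ne_bot S).1 hs.toNontrivial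
  have hT : Mn M S := by
    refine ⟨hSM, hne, hinv, fun K hK hKinv => ?_⟩
    have hn : (K.subgroupOf S).Normal := by
      constructor
      intro x hx g
      rw [Subgroup.mem_subgroupOf] at hx ⊢
      have h := hKinv (g : G) (hSM g.2) (x : G) hx
      simpa using h
    rcases hs.eq_bot_or_eq_top_of_normal _ hn with h | h
    · left
      rw [Subgroup.subgroupOf_eq_bot] at h
      rw [eq_bot_iff]
      intro x hx
      exact (Subgroup.disjoint_def.1 h) hx (hK hx)
    · right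
      exact le_antisymm hK (Subgroup.subgroupOf_eq_top.1 h)
  intro g
  rcases (hT.cj g).two hT with h1 | h1
  · left
    intro t
    constructor
    · intro ht
      have h2 : g * t * g⁻¹ ∈ cj g S := conj_mem_cj.2 ht
      rwa [h1] at h2
    · intro ht
      rw [← h1] at ht
      exact conj_mem_cj.1 ht
  · right
    intro t ht t' ht'
    exact h1 _ (conj_mem_cj.2 ht) t' ht'

theorem pb4_thm (hPB3 : PB3Stmt) : PB4Stmt := by
  intro G _ _ d M S hMn hSM hinv hs hnc hL g
  have hD := pb4_dich hMn hSM hinv hs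
  obtain ⟨F, hF⟩ : ∃ F : Subgroup G, F = Subgroup.normalizer (S : Set G) := ⟨_, rfl⟩
  have hmem : ∀ x : G, x ∈ F ↔ ∀ t, t ∈ S ↔ x * t * x⁻¹ ∈ S := by
    intro x
    rw [hF, Subgroup.mem_normalizer_iff]
  have hp : ∀ p : ℕ, p.Prime → ∃ n : ℕ, ¬ p ∣ n ∧ g ^ (ed d * n) ∈ F := by
    intro p hp
    obtain ⟨N, w, hw, ho⟩ := Nat.exists_eq_pow_mul_and_not_dvd (orderOf_pos g).ne' p hp.ne_one
    refine ⟨w, hw, ?_⟩
    by_cases hD0 : ed d = 0
    · rw [hD0, zero_mul, pow_zero]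
      exact Subgroup.one_mem _
    · obtain ⟨v, D', hD', hDv⟩ := Nat.exists_eq_pow_mul_and_not_dvd hD0 p hp.ne_one
      have hnd : ¬ p ^ (v + 1) ∣ ed d := by
        rw [hDv, pow_succ]
        intro hcon
        exact hD' (Nat.dvd_of_mul_dvd_mul_left (pow_pos hp.pos v) hcon)
      have hz := hPB3 G p N v d S (g ^ w) hp
        (by rw [← pow_mul, mul_comm, ← ho, pow_orderOf_eq_one]) hs hnc hD hL hnd
      have h1 : g ^ (ed d * w) = ((g ^ w) ^ (p ^ v)) ^ D' := by
        rw [← pow_mul, ← pow_mul, hDv]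
        congr 1
        ring
      rw [h1]
      exact Subgroup.pow_mem _ ((hmem _).2 hz) D'
  obtain ⟨n0, hn0, hg0⟩ := hp 2 Nat.prime_two
  have hn0' : 0 < n0 := Nat.pos_of_ne_zero (by rintro rfl; exact hn0 (dvd_zero _))
  rw [pow_mul] at hg0
  obtain ⟨m, hm0, hmF, hmd⟩ := exists_min_exp F (g := g ^ ed d) hn0' hg0
  have hm1 : m = 1 := by
    by_contra hne
    obtain ⟨p, hpp, hpm⟩ := Nat.exists_prime_and_dvd hne
    obtain ⟨n, hn, hg⟩ := hp p hpp
    rw [pow_mul] at hg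
    exact hn (dvd_trans hpm (hmd n hg))
  rw [hm1, pow_one] at hmF
  exact (hmem _).1 hmF

end Pool.ENR
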