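import Pool.Agent.H14.ENR.CYB
import Pool.Agent.H29.ENR.Stmts3

/-!
Board enr, row GRB: the base theorem over a finite local ring with maximal ideal `(p)`.
-/

set_option autoImplicit false

namespace Pool.ENR

open Pool.Agent.H81.ENG

section

variable {P : Type} [Group P] {R : Type} [CommRing R] {e : Multiplicative R →* P} {ζ u : R}
  {n : P} {τ : MulAut P}

/-- `y ↦ e y`, additive notation on the left -/
def gE (e : Multiplicative R →* P) (y : R) : P := e (Multiplicative.ofAdd y)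

theorem gE_add (x y : R) : gE e (x + y) = gE e x * gE e y := by
  unfold gE
  rw [ofAdd_add, map_mul]

theorem gE_zero : gE e 0 = 1 := by
  unfold gE
  rw [ofAdd_zero, map_one]

theorem gE_nsmul (x : R) (m : ℕ) : gE e x ^ m = gE e (m * x) := by
  induction m with
  | zero => simp [gE_zero]
  | succ m ih =>
    rw [pow_succ, ih, ← gE_add]
    congr 1
    push_cast
    ring

theorem gE_mem (y : R) : gE e y ∈ e.range := ⟨_, rfl⟩

theorem gE_inj (he : Function.Injective e) {x y : R} (h : gE e x = gE e y) : x = y :=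
  Multiplicative.ofAdd.injective (he h)

/-- the logarithm -/
noncomputable def gL (e : Multiplicative R →* P) (x : P) : R :=
  Multiplicative.toAdd (Function.invFun e x)

theorem gL_gE (he : Function.Injective e) (y : R) : gL e (gE e y) = y := by
  unfold gL gE
  rw [Function.leftInverse_invFun he]
  rfl

theorem gE_gL (he : Function.Injective e) {x : P} (hx : x ∈ e.range) : gE e (gL e x) = x := by
  obtain ⟨y, rfl⟩ := hx
  have h := gL_gE he (Multiplicative.toAdd y)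
  have h1 : gE e (Multiplicative.toAdd y) = e y := rfl
  rw [h1] at h
  rw [h, h1]

theorem gL_mul (he : Function.Injective e) {x y : P} (hx : x ∈ e.range) (hy : y ∈ e.range) :
    gL e (x * y) = gL e x + gL e y := by
  apply gE_inj he
  rw [gE_gL he (Subgroup.mul_mem _ hx hy), gE_add, gE_gL he hx, gE_gL he hy]

theorem g_conj (hnc : ∀ y : R, n * gE e y * n⁻¹ = gE e (ζ * y)) (y x : R) (i : ℕ) :
    (gE e y * n ^ i) * gE e x * (gE e y * n ^ i)⁻¹ = gE e (ζ ^ i * x) := by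
  have h1 : ∀ i : ℕ, n ^ i * gE e x * (n ^ i)⁻¹ = gE e (ζ ^ i * x) := by
    intro i
    induction i with
    | zero => simp
    | succ i ih =>
      have h2 : n ^ (i + 1) * gE e x * (n ^ (i + 1))⁻¹ = n * (n ^ i * gE e x * (n ^ i)⁻¹) * n⁻¹ := by
        rw [pow_succ']; group
      rw [h2, ih, hnc]
      congr 1
      ring
  have h3 : (gE e y * n ^ i) * gE e x * (gE e y * n ^ i)⁻¹ =
      gE e y * (n ^ i * gE e x * (n ^ i)⁻¹) * (gE e y)⁻¹ := by group
  rw [h3, h1, ← gE_add, add_comm, gE_add]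
  group

theorem g_conj' (hgen : ∀ x : P, ∃ (y : R) (i : ℕ), x = gE e y * n ^ i)
    (hnc : ∀ y : R, n * gE e y * n⁻¹ = gE e (ζ * y)) (g : P) :
    ∃ c : R, ∀ x : R, g * gE e x * g⁻¹ = gE e (c * x) := by
  obtain ⟨y, i, rfl⟩ := hgen g
  exact ⟨ζ ^ i, fun x => g_conj hnc y x i⟩

theorem g_normal (hgen : ∀ x : P, ∃ (y : R) (i : ℕ), x = gE e y * n ^ i)
    (hnc : ∀ y : R, n * gE e y * n⁻¹ = gE e (ζ * y)) : e.range.Normal := by
  constructor
  rintro _ ⟨x, rfl⟩ g
  obtain ⟨c, hc⟩ := g_conj' hgen hnc g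
  have h := hc (Multiplicative.toAdd x)
  have h1 : gE e (Multiplicative.toAdd x) = e x := rfl
  rw [h1] at h
  rw [h]
  exact gE_mem _

theorem g_tau_e (hτe : ∀ y : R, τ (gE e y) = gE e y) (M : ℕ) (y : R) :
    (τ ^ M) (gE e y) = gE e y := by
  induction M with
  | zero => simp
  | succ M ih => rw [pow_succ, MulAut.mul_apply, hτe, ih]

theorem g_tau_n (hτe : ∀ y : R, τ (gE e y) = gE e y) (hτn : τ n = gE e u * n) (M : ℕ) :
    (τ ^ M) n = gE e (M * u) * n := by
  induction M with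
  | zero => simp [gE_zero]
  | succ M ih =>
    rw [pow_succ, MulAut.mul_apply, hτn, map_mul, g_tau_e hτe, ih, ← mul_assoc, ← gE_add]
    congr 2
    push_cast
    ring

/-- the subgroup of sequences with values in the range of `e` -/
def gN (e : Multiplicative R →* P) (τ : MulAut P) (k : ℕ) : Subgroup (TSq τ k) where
  carrier := {x | ∀ i, (x : ℤ → P) i ∈ e.range}
  one_mem' := fun _ => Subgroup.one_mem _
  mul_mem' := fun ha hb i => Subgroup.mul_mem _ (ha i) (hb i)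
  inv_mem' := fun ha i => Subgroup.inv_mem _ (ha i)

/-- multiplication of all coordinates by `y` -/
noncomputable def gPsi (he : Function.Injective e) (hτe : ∀ y : R, τ (gE e y) = gE e y) (k : ℕ)
    (y : R) : gN e τ k →* gN e τ k :=
  MonoidHom.mk' (fun x => ⟨⟨fun i => gE e (y * gL e (((x : TSq τ k) : ℤ → P) i)), fun i => by
      have h1 : ((x : TSq τ k) : ℤ → P) (i + k) = τ (((x : TSq τ k) : ℤ → P) i) := x.1.2 i
      have h2 : τ (((x : TSq τ k) : ℤ → P) i) = ((x : TSq τ k) : ℤ → P) i := by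
        obtain ⟨w, hw⟩ := x.2 i
        rw [← hw]
        exact hτe (Multiplicative.toAdd w)
      show gE e (y * gL e (((x : TSq τ k) : ℤ → P) (i + k))) =
        τ (gE e (y * gL e (((x : TSq τ k) : ℤ → P) i)))
      rw [h1, h2, hτe]⟩, fun i => gE_mem _⟩) (by
    intro a b
    apply Subtype.ext
    apply Subtype.ext
    funext i
    show gE e (y * gL e (((a : TSq τ k) : ℤ → P) i * ((b : TSq τ k) : ℤ → P) i)) =
      gE e (y * gL e (((a : TSq τ k) : ℤ → P) i)) * gE e (y * gL e (((b : TSq τ k) : ℤ → P) i))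
    rw [gL_mul he (a.2 i) (b.2 i), mul_add, gE_add])

theorem gPsi_apply (he : Function.Injective e) (hτe : ∀ y : R, τ (gE e y) = gE e y) (k : ℕ)
    (y : R) (x : gN e τ k) (i : ℤ) : (((gPsi he hτe k y x : gN e τ k) : TSq τ k) : ℤ → P) i =
      gE e (y * gL e (((x : TSq τ k) : ℤ → P) i)) := rfl

/-- the sequence with given values on `[0, k)` -/
def gS (hτe : ∀ y : R, τ (gE e y) = gE e y) (k : ℕ) (hk : 0 < k) (f : Fin k → R) : gN e τ k :=
  ⟨⟨fun i => gE e (f ⟨(i % (k : ℤ)).toNat % k, Nat.mod_lt _ hk⟩), fun i => by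
    show gE e (f ⟨((i + k) % (k : ℤ)).toNat % k, Nat.mod_lt _ hk⟩) =
      τ (gE e (f ⟨(i % (k : ℤ)).toNat % k, Nat.mod_lt _ hk⟩))
    rw [hτe]
    congr 3
    rw [Int.add_emod_right]⟩, fun i => gE_mem _⟩

theorem gS_apply (hτe : ∀ y : R, τ (gE e y) = gE e y) (k : ℕ) (hk : 0 < k) (f : Fin k → R)
    (i : ℤ) : (((gS hτe k hk f : gN e τ k) : TSq τ k) : ℤ → P) i =
      gE e (f ⟨(i % (k : ℤ)).toNat % k, Nat.mod_lt _ hk⟩) := rfl

theorem gS_val (hτe : ∀ y : R, τ (gE e y) = gE e y) (k : ℕ) (hk : 0 < k) (f : Fin k → R)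
    (t : Fin k) : (((gS hτe k hk f : gN e τ k) : TSq τ k) : ℤ → P) ((t : ℕ) : ℤ) = gE e (f t) := by
  rw [gS_apply]
  have h2 : ((t : ℕ) : ℤ) % (k : ℤ) = (t : ℕ) :=
    Int.emod_eq_of_lt (by positivity) (by exact_mod_cast t.2)
  congr 2
  apply Fin.ext
  show (((t : ℕ) : ℤ) % (k : ℤ)).toNat % k = t
  rw [h2, Int.toNat_natCast, Nat.mod_eq_of_lt t.2]

theorem gS_add (hτe : ∀ y : R, τ (gE e y) = gE e y) (k : ℕ) (hk : 0 < k) (f g : Fin k → R) :
    gS hτe k hk (f + g) = gS hτe k hk f * gS hτe k hk g := by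
  apply Subtype.ext
  apply Subtype.ext
  funext i
  exact gE_add _ _

theorem gS_smul (he : Function.Injective e) (hτe : ∀ y : R, τ (gE e y) = gE e y) (k : ℕ)
    (hk : 0 < k) (y : R) (f : Fin k → R) :
    gS hτe k hk (y • f) = gPsi he hτe k y (gS hτe k hk f) := by
  apply Subtype.ext
  apply Subtype.ext
  funext i
  rw [gPsi_apply, gS_apply, gS_apply, gL_gE he]
  rfl

theorem gS_inj (he : Function.Injective e) (hτe : ∀ y : R, τ (gE e y) = gE e y) (k : ℕ)
    (hk : 0 < k) : Function.Injective (gS hτe k hk) := by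
  intro f g hfg
  funext t
  apply gE_inj he
  rw [← gS_val hτe k hk f t, ← gS_val hτe k hk g t, hfg]

theorem gS_surj (he : Function.Injective e) (hτe : ∀ y : R, τ (gE e y) = gE e y) (k : ℕ)
    (hk : 0 < k) : Function.Surjective (gS hτe k hk) := by
  intro x
  have hkz : (0 : ℤ) < (k : ℤ) := by exact_mod_cast hk
  refine ⟨fun t => gL e (((x : TSq τ k) : ℤ → P) ((t : ℕ) : ℤ)), ?_⟩
  apply Subtype.ext
  apply Subtype.ext
  funext i
  rw [gS_apply]
  show gE e (gL e (((x : TSq τ k) : ℤ → P) (((i % (k : ℤ)).toNat % k : ℕ) : ℤ))) = _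
  have hge : 0 ≤ i % (k : ℤ) := Int.emod_nonneg _ hkz.ne'
  have hlt : i % (k : ℤ) < k := Int.emod_lt_of_pos _ hkz
  have h1 : (((i % (k : ℤ)).toNat % k : ℕ) : ℤ) = i % (k : ℤ) := by
    rw [Nat.mod_eq_of_lt (by omega), Int.toNat_of_nonneg hge]
  rw [h1, gE_gL he (x.2 _)]
  have h2 := cyb_tw' x.1.2 i
  rw [h2]
  obtain ⟨w, hw⟩ := x.2 (i % (k : ℤ))
  rw [← hw]
  have h3 : τ (e w) = e w := hτe (Multiplicative.toAdd w)
  have h4 : ∀ m : ℤ, (τ ^ m) (e w) = e w := by
    intro m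
    induction m using Int.induction_on with
    | zero => simp
    | succ m ih => rw [zpow_add_one, MulAut.mul_apply, h3, ih]
    | pred m ih =>
      have h5 : τ⁻¹ (e w) = e w := by
        apply τ.injective
        rw [MulAut.apply_inv_self, h3]
      rw [zpow_sub_one, MulAut.mul_apply, h5, ih]
  exact (h4 _).symm

end

theorem grb_thm (hAFG : AFGStmt) (hUN3 : UN3Stmt) : GRBStmt := by
  intro P _ R _ p r b c e ζ u n τ hp hp2 hr hrp hb hc hGR he hgen hnr hnc hτe hτn hu d hL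
  have : Fact p.Prime := ⟨hp⟩
  have : Fact r.Prime := ⟨hr⟩
  have : NeZero r := ⟨hr.ne_zero⟩
  change ∀ x : P, ∃ (y : R) (i : ℕ), x = gE e y * n ^ i at hgen
  change ∀ y : R, n * gE e y * n⁻¹ = gE e (ζ * y) at hnc
  change ∀ y : R, τ (gE e y) = gE e y at hτe
  change τ n = gE e u * n at hτn
  have hk : 0 < p ^ b := pow_pos hp.pos b
  have hNn : e.range.Normal := g_normal hgen hnc
  obtain ⟨hRf, hpc, hpc1, -⟩ := id hGR
  let θ : P →* P ⧸ e.range := QuotientGroup.mk' _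
  have hθ1 : ∀ x, θ x = 1 ↔ x ∈ e.range := fun x => QuotientGroup.eq_one_iff x
  have hθτ : ∀ x, θ (τ x) = θ x := by
    intro x
    obtain ⟨y, i, rfl⟩ := hgen x
    rw [map_mul, map_pow, hτe, hτn, map_mul, map_mul, map_pow, map_pow, map_mul,
      (hθ1 (gE e u)).mpr (gE_mem _), one_mul]
  have hθτz : ∀ (m : ℤ) (x : P), θ ((τ ^ m) x) = θ x := by
    intro m
    induction m using Int.induction_on with
    | zero => intro x; simp
    | succ m ih =>
      intro x
      rw [zpow_add_one, MulAut.mul_apply, ih, hθτ]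
    | pred m ih =>
      intro x
      rw [zpow_sub_one, MulAut.mul_apply, ih, ← hθτ (τ⁻¹ x), MulAut.apply_inv_self]
  -- the order of τ
  have hτc : τ ^ (p ^ c) = 1 := by
    apply MulEquiv.ext
    intro x
    obtain ⟨y, i, rfl⟩ := hgen x
    rw [map_mul, map_pow, g_tau_e hτe, g_tau_n hτe hτn]
    have h1 : ((p ^ c : ℕ) : R) * u = 0 := by
      push_cast
      rw [hpc, zero_mul]
    rw [h1, gE_zero, one_mul]
    rfl
  set μ := b + c - 1 with hμ
  have hμ1 : μ + 1 = b + c := by omega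
  have hμk : p ^ μ = p ^ b * p ^ (c - 1) := by
    rw [← pow_add]; congr 1; omega
  have hS1 : (tsh τ (p ^ b)) ^ (p ^ (μ + 1)) = 1 := by
    apply MulEquiv.ext
    intro x
    apply Subtype.ext
    funext i
    rw [hμ1, pow_add, cyb_sh_pow, hτc]
    rfl
  let N : Subgroup (TSq τ (p ^ b)) := gN e τ (p ^ b)
  have hNnorm : N.Normal := by
    constructor
    intro x hx g i
    exact hNn.conj_mem _ (hx i) _
  have hcomm : ∀ x ∈ N, ∀ y ∈ N, x * y = y * x := by
    intro x hx y hy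
    apply Subtype.ext
    funext i
    obtain ⟨w, hw⟩ := hx i
    obtain ⟨w', hw'⟩ := hy i
    show (x : ℤ → P) i * (y : ℤ → P) i = (y : ℤ → P) i * (x : ℤ → P) i
    rw [← hw, ← hw', ← map_mul, ← map_mul, mul_comm]
  -- the constant sequence
  let v : TSq τ (p ^ b) := ⟨fun _ => gE e 1, fun _ => (hτe 1).symm⟩
  have hv : v ∈ N := fun _ => gE_mem _
  have h10 : (1 : R) ≠ 0 := by
    intro h
    apply hpc1
    rw [← mul_one ((p : R) ^ (c - 1)), h, mul_zero]
  have hv1 : v ≠ 1 := by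
    intro h
    have h1 : gE e 1 = 1 := congrFun (congrArg Subtype.val h) 0
    rw [← gE_zero (e := e)] at h1
    exact h10 (gE_inj he h1)
  have hSv : tsh τ (p ^ b) v = v := rfl
  -- the operators
  let ψ : R → N →* N := gPsi he hτe (p ^ b)
  have hψconj : ∀ (i : R) (g : TSq τ (p ^ b)) (x y : N),
      (y : TSq τ (p ^ b)) = g * x * g⁻¹ →
      ((ψ i y : N) : TSq τ (p ^ b)) = g * (ψ i x : N) * g⁻¹ := by
    intro i g x y hxy
    apply Subtype.ext
    funext j
    have h1 : ((y : TSq τ (p ^ b)) : ℤ → P) j =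
        (g : ℤ → P) j * ((x : TSq τ (p ^ b)) : ℤ → P) j * ((g : ℤ → P) j)⁻¹ :=
      congrFun (congrArg Subtype.val hxy) j
    show gE e (i * gL e (((y : TSq τ (p ^ b)) : ℤ → P) j)) =
      (g : ℤ → P) j * gE e (i * gL e (((x : TSq τ (p ^ b)) : ℤ → P) j)) * ((g : ℤ → P) j)⁻¹
    obtain ⟨a, ha⟩ := g_conj' hgen hnc ((g : ℤ → P) j)
    have h2 := ha (gL e (((x : TSq τ (p ^ b)) : ℤ → P) j))
    rw [gE_gL he (x.2 j)] at h2
    rw [h1, h2, gL_gE he, ha]
    congr 1
    ring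
  have hψS : ∀ (i : R) (x y : N), (y : TSq τ (p ^ b)) = tsh τ (p ^ b) x →
      ((ψ i y : N) : TSq τ (p ^ b)) = tsh τ (p ^ b) (ψ i x : N) := by
    intro i x y hxy
    apply Subtype.ext
    funext j
    have h1 : ((y : TSq τ (p ^ b)) : ℤ → P) j = ((x : TSq τ (p ^ b)) : ℤ → P) (j + 1) :=
      congrFun (congrArg Subtype.val hxy) j
    show gE e (i * gL e (((y : TSq τ (p ^ b)) : ℤ → P) j)) =
      gE e (i * gL e (((x : TSq τ (p ^ b)) : ℤ → P) (j + 1)))
    rw [h1]
  have hψS' : ∀ (i : R) (x y : N), (y : TSq τ (p ^ b)) = (tsh τ (p ^ b))⁻¹ x →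
      ((ψ i y : N) : TSq τ (p ^ b)) = (tsh τ (p ^ b))⁻¹ (ψ i x : N) := by
    intro i x y hxy
    apply Subtype.ext
    funext j
    have h1 : ((y : TSq τ (p ^ b)) : ℤ → P) j = ((x : TSq τ (p ^ b)) : ℤ → P) (j - 1) :=
      congrFun (congrArg Subtype.val hxy) j
    show gE e (i * gL e (((y : TSq τ (p ^ b)) : ℤ → P) j)) =
      gE e (i * gL e (((x : TSq τ (p ^ b)) : ℤ → P) (j - 1)))
    rw [h1]
  -- affine maps
  have haff : ∀ (a : N →* N) (u0 : N), a ⟨v, hv⟩ = 1 → (∀ i x, a (ψ i x) = ψ i (a x)) →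
      ∃ m t : ℕ, ¬ p ∣ m ∧
        ∀ y, (fun y => a y * u0)^[t + m * p ^ μ] y = (fun y => a y * u0)^[t] y := by
    intro a u0 ha haψ
    let E : (Fin (p ^ b) → R) → N := gS hτe (p ^ b) hk
    have hEadd : ∀ f g, E (f + g) = E f * E g := gS_add hτe (p ^ b) hk
    have hEinj : Function.Injective E := gS_inj he hτe (p ^ b) hk
    have hEsurj : Function.Surjective E := gS_surj he hτe (p ^ b) hk
    have hEsm : ∀ (y : R) f, E (y • f) = ψ y (E f) := gS_smul he hτe (p ^ b) hk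
    let ee := Equiv.ofBijective E ⟨hEinj, hEsurj⟩
    have hee : ∀ x, E (ee.symm x) = x := fun x => ee.apply_symm_apply x
    let A : (Fin (p ^ b) → R) →ₗ[R] (Fin (p ^ b) → R) :=
      { toFun := fun f => ee.symm (a (E f))
        map_add' := by
          intro f g
          apply hEinj
          rw [hee, hEadd, hEadd, hee, hee, map_mul]
        map_smul' := by
          intro y f
          apply hEinj
          rw [hee, RingHom.id_apply, hEsm, hEsm, hee, haψ] }
    have hEA : ∀ f, E (A f) = a (E f) := fun f => hee _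
    have hE0 : E 0 = 1 := by
      have h1 := hEadd 0 0
      rw [add_zero] at h1
      exact (mul_eq_left.mp h1.symm)
    obtain ⟨m, t, hm, hA⟩ := hAFG R p b c hc hGR A (ee.symm u0) (ee.symm ⟨v, hv⟩) (by
      intro h
      apply hv1
      have h1 := congrArg E h
      rw [hee, hE0] at h1
      exact congrArg Subtype.val h1) (by
      apply hEinj
      rw [hEA, hee, ha, hE0])
    have hsemi : ∀ (i : ℕ) (f : Fin (p ^ b) → R),
        E ((fun v => A v + ee.symm u0)^[i] f) = (fun y => a y * u0)^[i] (E f) := by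
      intro i
      induction i with
      | zero => intro f; rfl
      | succ i ih =>
        intro f
        rw [Function.iterate_succ_apply, Function.iterate_succ_apply, ih, hEadd, hEA, hee]
    refine ⟨m, t, hm, fun y => ?_⟩
    obtain ⟨f, rfl⟩ := hEsurj y
    rw [← hsemi, ← hsemi, hA]
  -- the model sequence
  have h2b : 2 < p ^ b := by
    have h3 : 3 ≤ p := by
      have := hp.two_le
      omega
    calc 2 < p := by omega
      _ = p ^ 1 := (pow_one p).symm
      _ ≤ p ^ b := Nat.pow_le_pow_right hp.pos hb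
  obtain ⟨a, ha0, haM, -, -, hcase⟩ := root_seq hp (Ne.symm hrp) h2b
  let ξ : TSq τ (p ^ b) := ⟨cybG τ (p ^ b) (fun i => pw n (a i)), cybG_mem τ hk _⟩
  have hper : ∀ i, a (i % ((p ^ b : ℕ) : ℤ)) = a i := by
    intro i
    have h3 : Function.Periodic a ((p ^ b : ℕ) : ℤ) := haM
    have h4 := h3.int_mul (i / ((p ^ b : ℕ) : ℤ)) (i % ((p ^ b : ℕ) : ℤ))
    simp only [Int.cast_id] at h4
    rw [mul_comm, Int.emod_add_mul_ediv] at h4
    exact h4.symm
  have hθξ : ∀ i, θ ((ξ : ℤ → P) i) = pw (θ n) (a i) := by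
    intro i
    show θ ((τ ^ (i / ((p ^ b : ℕ) : ℤ))) (pw n (a (i % ((p ^ b : ℕ) : ℤ))))) = _
    rw [hθτz, pw_map, hper]
  have hθnr : (θ n) ^ r = 1 := by rw [← map_pow, hnr, map_one]
  have hξ0 : (ξ : ℤ → P) 0 = n := by
    show (τ ^ ((0 : ℤ) / ((p ^ b : ℕ) : ℤ))) (pw n (a ((0 : ℤ) % ((p ^ b : ℕ) : ℤ)))) = n
    rw [Int.zero_ediv, Int.zero_emod, ha0, pw_one n hr.one_lt]
    simp
  -- no fixed points
  have hfix : ∀ y ∈ N, ∀ M : ℕ, ¬ p ∣ M →
      ((tsh τ (p ^ b)) ^ (p ^ μ * M)) (y * ξ) ≠ y * ξ := by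
    intro y hy M hM heq
    have h1 := congrFun (congrArg Subtype.val heq) 0
    rw [hμk, mul_assoc, cyb_sh_pow] at h1
    have hy0 := gE_gL he (hy 0)
    set w := gL e ((y : ℤ → P) 0) with hw
    have h2 : ((y * ξ : TSq τ (p ^ b)) : ℤ → P) 0 = gE e w * n := by
      show (y : ℤ → P) 0 * (ξ : ℤ → P) 0 = _
      rw [hξ0, hy0]
    rw [h2, map_mul, g_tau_e hτe, g_tau_n hτe hτn] at h1
    have h3 : gE e (((p ^ (c - 1) * M : ℕ) : R) * u) = 1 := by
      have h4 := mul_left_cancel h1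
      exact mul_eq_right.mp h4
    rw [← gE_zero (e := e)] at h3
    have h5 := gE_inj he h3
    have h6 : ((p ^ (c - 1) * M : ℕ) : R) = 0 := by
      obtain ⟨u', hu'⟩ := hu
      have h7 := congrArg (fun x => x * (↑(u'⁻¹) : R)) h5
      simp only [zero_mul] at h7
      rwa [mul_assoc, ← hu', Units.mul_inv, mul_one] at h7
    have hcop : Nat.Coprime M (p ^ c) :=
      Nat.Coprime.pow_right c ((Nat.Prime.coprime_iff_not_dvd hp).2 hM).symm
    have h8 := Nat.gcd_eq_gcd_ab M (p ^ c)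
    rw [hcop.gcd_eq_one] at h8
    have h9 := congrArg (fun z : ℤ => (z : R)) h8
    push_cast at h9
    rw [hpc, zero_mul, add_zero] at h9
    apply hpc1
    calc (p : R) ^ (c - 1) = (p : R) ^ (c - 1) * 1 := (mul_one _).symm
      _ = (((p ^ (c - 1) * M : ℕ) : R)) * (M.gcdA (p ^ c) : R) := by
        rw [h9]
        push_cast
        ring
      _ = 0 := by rw [h6, zero_mul]
  have hSN : ∀ x ∈ N, tsh τ (p ^ b) x ∈ N := fun x hx i => hx (i + 1)
  have hSN' : ∀ x ∈ N, (tsh τ (p ^ b))⁻¹ x ∈ N := fun x hx i => hx (i - 1)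
  rw [← hμ1]
  rcases hcase with ⟨rr, hrr, hrel⟩ | ⟨rr, hrr, hrel⟩
  · refine hUN3 _ (tsh τ (p ^ b)) N p μ R ψ hp hcomm hSN hSN' hS1 hψS hψconj v hv hv1 hSv haff ξ rr
      hrr ?_ hfix d hL.1
    intro i
    rw [← hθ1]
    show θ ((((ef (tsh τ (p ^ b)))^[rr] ξ : TSq τ (p ^ b)) : ℤ → P) i *
      ((ξ : ℤ → P) (i + 1))⁻¹) = 1
    have h1 := coe_ef_restr (shift P) (TSq τ (p ^ b)) (TSq_shift τ (p ^ b)) rr ξ
    have h2 := congrFun h1 i
    have h3 : (((ef (tsh τ (p ^ b)))^[rr] ξ : TSq τ (p ^ b)) : ℤ → P) i =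
      ((ef (shift P))^[rr] (ξ : ℤ → P)) i := h2
    rw [h3, map_mul, map_inv, hθξ, rel_iter θ hθnr rr (ξ : ℤ → P) a hθξ, hrel, mul_inv_cancel]
  · refine hUN3 _ (tsh τ (p ^ b))⁻¹ N p μ R ψ hp hcomm hSN' (by rw [inv_inv]; exact hSN) ?_ hψS'
      hψconj v hv hv1 ?_ haff ξ rr hrr ?_ ?_ d hL.2
    · rw [inv_pow, hS1, inv_one]
    · apply (tsh τ (p ^ b)).injective
      rw [MulAut.apply_inv_self, hSv]
    · intro i
      rw [← hθ1]
      show θ ((((ef (tsh τ (p ^ b))⁻¹)^[rr] ξ : TSq τ (p ^ b)) : ℤ → P) i *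
        ((ξ : ℤ → P) (i - 1))⁻¹) = 1
      have h1 := coe_ef_restr_inv (shift P) (TSq τ (p ^ b)) (TSq_shift τ (p ^ b)) rr ξ
      have h2 := congrFun h1 i
      have h3 : (((ef (tsh τ (p ^ b))⁻¹)^[rr] ξ : TSq τ (p ^ b)) : ℤ → P) i =
        ((ef (shift P)⁻¹)^[rr] (ξ : ℤ → P)) i := h2
      rw [h3, map_mul, map_inv, hθξ, rel_iter_inv θ hθnr rr (ξ : ℤ → P) a hθξ, hrel,
        mul_inv_cancel]
    · intro y hy M hM heq
      apply hfix y hy M hM
      have h1 := congrArg ((tsh τ (p ^ b)) ^ (p ^ μ * M)) heq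
      rw [inv_pow, MulAut.apply_inv_self] at h1
      exact h1.symm

end Pool.ENR
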